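import Pool.Agent.J6H88.LcSys.Fam
import Pool.Agent.W603.GX.Main

/-!
MP_66b48b_ag, Q1: nonvanishing and `κ = ν` for projective log canonical pairs `(X, Δ)` with families
of circuits (`m + 1` nonzero functions with sum `0`, the first `m` of which are linearly independent
over `ℂ`) whose orders jump, if the general fibres of the map given by the circuits are very affine.

The language is the one of `Pool/Agent/Y172/Defs.lean`: `NormalModel y`: `y` is the generic point, in
homogeneous coordinates, of a normal projective variety `X` with function field `K`; the prime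
divisors of `X` are places `P` of `K` (`IsPrimeDivisor`), `P.ord` is the order along `P`;
`Effective y Δ`, `LogCanonical y n Δ`: `Δ ≥ 0` is a `ℚ`-divisor, and the pair `(X, Δ)` of dimension `n`
is log canonical. `kodairaDim y n Δ` and `numericalDim y n Δ A` are the Kodaira dimension and the
numerical dimension, with respect to `A`, of `K_X + Δ`. If `κ (K_X + Δ)` is a natural number, then
`K_X + Δ` is `ℚ`-linearly equivalent to an effective divisor.

`CFam ℂ K` (`Pool/Agent/TH710/ND/Fam.lean`): a finite family of circuits, vanishing sums
`∑ j, T i j = 0` of nonzero functions, all but the last of which are linearly independent over `ℂ`.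
`A.Const P`: in each circuit of `A` the members have equal orders at `P`; `A.Jump P J`: two members of
some circuit of `A` have orders at `P` which differ by at least `J`. `Fld G` (`Pool/Agent/J6H88/LcSys/Fam.lean`): the field generated by the ratios of the
members of the circuits of the families in `G`.
-/

set_option autoImplicit false

namespace Pool.Agent.Results.MP_66b48b_ag.CircuitPairs

open FF Pool.Agent.W602.GT Pool.Agent.TH710.ND Pool.Agent.J6H88.LcSys
open Pool.Agent.Y172 (NormalModel IsPrimeDivisor Effective Integral LogCanonical kodairaDim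
  numericalDim)

/-- `κ (K_X + Δ) = ν (K_X + Δ) = κ` -/
def DimEq {K : Type} [Field K] [Algebra ℂ K] {N : ℕ} (y : Fin (N + 1) → K) (n : ℕ)
    (Δ : Place ℂ K → ℚ) (κ : ℕ) : Prop :=
  kodairaDim y n Δ = (κ : WithBot ℕ) ∧
    ∀ A, Effective y A → Integral y A → numericalDim y n Δ A = (κ : EReal)

/-- Let `(X, Δ)` be a projective log canonical pair of dimension `n` with function field `K`, and `G`
a set of families of at most `c` circuits in `K` with at most `s` members. Let `d` be the
transcendence degree of the field `Fld G` generated by the ratios of the members of the circuits, and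
suppose that for each prime divisor `P` of `X` and each family in `G` the orders at `P` are constant on
the circuits, or in some circuit of the family two orders differ by at least
`(d c (s + 1) (s - 1) (s - 2) / 2 + 1) (1 - Δ P)`. Let `K` be generated by functions which are algebraic
over `Fld G` and functions `t j` (the general fibres of the map given by `Fld G` are very affine), such
that `Δ P ≥ 1` for the zeros and poles `P` of the `t j` which are trivial on the algebraic closure of
`Fld G` in `K`. Then `κ (K_X + Δ) = ν (K_X + Δ)` is a natural number, at least `d`. -/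
theorem result {K : Type} [Field K] [Algebra ℂ K] {N n d r s c : ℕ} {y : Fin (N + 1) → K}
    {Δ : Place ℂ K → ℚ} (hy : NormalModel y) (hn : Algebra.trdeg ℂ K = n) (hΔ : Effective y Δ)
    (hLC : LogCanonical y n Δ) (G : CFam ℂ K → Prop)
    (hG : ∀ A, G A → @Fintype.card A.I A.fin ≤ c ∧ ∀ i, A.m i + 1 ≤ s)
    (hd : Algebra.trdeg ℂ (Fld G) = d)
    (hJ : ∀ P, IsPrimeDivisor y P → ∀ A, G A → A.Const P ∨ ∃ J : ℕ, A.Jump P J ∧
      ((d * (c * ((s + 1) * ((s - 1) * (s - 2) / 2))) + 1 : ℕ) : ℚ) * (1 - Δ P) ≤ J)
    (t : Fin r → K) (ht : ∀ j, t j ≠ 0)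
    (hgen : IntermediateField.adjoin ℂ ({v : K | IsAlgebraic (Fld G) v} ∪ Set.range t) = ⊤)
    (h2 : ∀ P, IsPrimeDivisor y P → (∀ f, IsAlgebraic (Fld G) f → f ≠ 0 → P.ord f = 0) →
      (∃ j, P.ord (t j) ≠ 0) → 1 ≤ Δ P) :
    ∃ κ : ℕ, d ≤ κ ∧ DimEq y n Δ κ := by
  rw [← Pool.Agent.W603.GX.tn_eq] at hJ
  obtain ⟨κ, h1, -, h3⟩ := fam_weak hy hn hΔ hLC G (fun A hA => (hG A hA).1)
    (fun A hA => (hG A hA).2) hd le_rfl hJ ht hgen h2
  exact ⟨κ, h1, h3⟩

end Pool.Agent.Results.MP_66b48b_ag.CircuitPairs
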