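import Pool.Agent.J6H88.LcSys.NestLin

/-!
MP_66b48b_ag, Q1: nonvanishing and `κ = ν` for **all** projective log canonical pairs `(X, Δ)` over
subvarieties `V` of quasi-projective varieties given by nested sums of high powers of linear forms, if
no affine line passes through the generic point of `V`.

The language is the one of `Pool/Agent/Y172/Defs.lean`: `NormalModel y`: `y` is the generic point, in
homogeneous coordinates, of a normal projective variety `X` with function field `K`; the prime
divisors of `X` are places `P` of `K` (`IsPrimeDivisor`), `P.ord` is the order along `P`;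
`Effective y Δ`, `LogCanonical y w Δ`: `Δ ≥ 0` is a `ℚ`-divisor, and the pair `(X, Δ)` of dimension `w`
is log canonical. `kodairaDim y w Δ` and `numericalDim y w Δ A` are the Kodaira dimension and the
numerical dimension, with respect to `A`, of `K_X + Δ`. If `κ (K_X + Δ)` is a natural number, then
`K_X + Δ` is `ℚ`-linearly equivalent to an effective divisor.

`IsNested s M H F` (`Pool/Agent/TH710/ND/Good.lean`): `F` is a form and a sum of at most `s` terms
`c g ^ e`, `e ≥ M`, where the `g` are linear forms or sums of at most `s` such terms of the next level,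
and so on, with at most `H + 1` levels; the numbers of summands and the exponents are the same for all
sums of one level. `SubVarQ F Q K w z`: `z` is the generic point of a subvariety `V` of dimension `w`,
with function field `K`, of `{F = 0, Q_j ≠ 0 for all j}`. `OffAny Q z P`: the centre of `P` on the
closure of `V` lies on one of the hypersurfaces `Q_j = 0`. `AffLineX F Q z`
(`Pool/Agent/W603/GY/Maps.lean`): there is a line `t ↦ z + t v` on which the `F_i` vanish and the `Q_j`
are constant. `KodGe ℂ K w (OffAny Q z) q`: the logarithmic Kodaira dimension of `V` is at least `q`.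
-/

set_option autoImplicit false

namespace Pool.Agent.Results.MP_66b48b_ag.NestedLinearPairs

open FF Pool.Agent.W602.GT Pool.Agent.TH710.ND Pool.Agent.J6H88.LcSys
open Pool.Agent.W603.GW (SubVarQ OffAny)
open Pool.Agent.W603.GY (AffLineX)
open Pool.Agent.Y172 (NormalModel IsPrimeDivisor Effective Integral LogCanonical kodairaDim
  numericalDim)

/-- `κ (K_X + Δ) = ν (K_X + Δ) = κ` -/
def DimEq {K : Type} [Field K] [Algebra ℂ K] {N : ℕ} (y : Fin (N + 1) → K) (n : ℕ)
    (Δ : Place ℂ K → ℚ) (κ : ℕ) : Prop :=
  kodairaDim y n Δ = (κ : WithBot ℕ) ∧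
    ∀ A, Effective y A → Integral y A → numericalDim y n Δ A = (κ : EReal)

/-- the bound `C = (H + 1) (2 s) ^ 2 (2 s + 1) (2 s - 1) (2 s - 2) / 2` -/
def bound (s H : ℕ) : ℕ :=
  (H + 1) * (2 * s * (2 * s)) * ((2 * s + 1) * ((2 * s - 1) * (2 * s - 2) / 2))

/-- Let `V` be a subvariety, of dimension `w` and with generic point `z`, of the quasi-projective
variety `{F = 0, Q_j ≠ 0 for all j}`, where the `F_i` and the finitely many `Q_j` are nested sums of high
powers of linear forms, with at most `s` terms in each sum, at most `H + 1` levels, and exponents at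
least `M ≥ 1`. Suppose that there is no line through the generic point `z` on which the `F_i` vanish
and the `Q_j` are constant. Let `(X, Δ)` be any projective log canonical pair, `X` birational to `V`,
such that the prime divisors of `X` over the hypersurfaces `Q_j = 0` have coefficients (at least) `1`,
and `(w C + 1) (1 - Δ P) ≤ M`, `C = bound s H`, for the other prime divisors (always true if
`M > w C`). Then `κ (K_X + Δ) = ν (K_X + Δ)` is a natural number, at least the logarithmic Kodaira
dimension of `V`. There is no other condition on `Δ`. -/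
theorem result {n : ℕ} {ι κ : Type} [Finite κ] {F : ι → MvPolynomial (Fin (n + 1)) ℂ}
    {Q : κ → MvPolynomial (Fin (n + 1)) ℂ} {s M H : ℕ} (hF : ∀ e, IsNested s M H (F e))
    (hQ : ∀ j, IsNested s M H (Q j)) (hM : 1 ≤ M) {K : Type} [Field K] [Algebra ℂ K] {w : ℕ}
    {z : Fin (n + 1) → K} (hz : SubVarQ F Q K w z) (hline : ¬ AffLineX F Q z) {N : ℕ}
    {y : Fin (N + 1) → K} {Δ : Place ℂ K → ℚ} (hy : NormalModel y) (hΔ : Effective y Δ)
    (hLC : LogCanonical y w Δ) (hone : ∀ P, IsPrimeDivisor y P → OffAny Q z P → 1 ≤ Δ P)
    (horb : ∀ P, IsPrimeDivisor y P → ¬ OffAny Q z P →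
      ((w * bound s H + 1 : ℕ) : ℚ) * (1 - Δ P) ≤ M) :
    ∃ κ' : ℕ, (∀ q, KodGe ℂ K w (OffAny Q z) q → q ≤ κ') ∧ DimEq y w Δ κ' :=
  lin_weak hF hQ hM hz hline hy hΔ hLC hone horb

end Pool.Agent.Results.MP_66b48b_ag.NestedLinearPairs
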