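import Pool.Agent.J6H88.LcSys.Nested

/-!
MP_66b48b_ag, Q1: nonvanishing and `κ = ν` for **all** projective log canonical pairs `(X, Δ)` over
subvarieties `V` of quasi-projective varieties given by nested sums of high powers of monomials, if no
affine line `t ↦ (t ^ b_j x_j)` passes through the generic point of `V`.

The language is the one of `Pool/Agent/Y172/Defs.lean`: `NormalModel y`: `y` is the generic point, in
homogeneous coordinates, of a normal projective variety `X` with function field `K`; the prime
divisors of `X` are places `P` of `K` (`IsPrimeDivisor`), `P.ord` is the order along `P`;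
`Effective y Δ`, `LogCanonical y w Δ`: `Δ ≥ 0` is a `ℚ`-divisor, and the pair `(X, Δ)` of dimension `w`
is log canonical. `kodairaDim y w Δ` and `numericalDim y w Δ A` are the Kodaira dimension and the
numerical dimension, with respect to `A`, of `K_X + Δ`. If `κ (K_X + Δ)` is a natural number, then
`K_X + Δ` is `ℚ`-linearly equivalent to an effective divisor.

`NestedIn IsMono s M H F` (`Pool/Agent/TH710/ND/Dich.lean`): `F` is a sum of at most `s` terms
`c g ^ e`, `e ≥ M`, where the `g` are monomials or sums of at most `s` such terms of the next level,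
and so on, with at most `H + 1` levels; the numbers of summands and the exponents are the same for all
sums of one level. `SubVarU U F K w z`: `z` is the generic point of a subvariety `V` of dimension `w`,
with function field `K`, of `{F = 0, x_j ≠ 0 for j in U}`. `OffU U z P`: the centre of `P` lies on one
of the hyperplanes `x_j = 0`, `j` in `U`. `AffOrbit U F z b`, `InOrbit F z b`
(`Pool/Agent/J6H88/LcSys/Sparse.lean`): the affine line `t ↦ (t ^ b_j z_j)` through the generic point of
`V` is contained in `{F = 0, x_j ≠ 0 for j in U}`; the orbit of `z` under the one-parameter group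
`diag (t ^ b_j)` is contained in `{F = 0}`. `KodGe ℂ K w (OffU U z) q`: the logarithmic Kodaira
dimension of `V` is at least `q`.
-/

set_option autoImplicit false

namespace Pool.Agent.Results.MP_66b48b_ag.NestedPairs

open FF Pool.Agent.W602.GT Pool.Agent.TH710.ND Pool.Agent.J6H88.LcSys
open Pool.Agent.Y172 (NormalModel IsPrimeDivisor Effective Integral LogCanonical kodairaDim
  numericalDim)

/-- `κ (K_X + Δ) = ν (K_X + Δ) = κ` -/
def DimEq {K : Type} [Field K] [Algebra ℂ K] {N : ℕ} (y : Fin (N + 1) → K) (n : ℕ)
    (Δ : Place ℂ K → ℚ) (κ : ℕ) : Prop :=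
  kodairaDim y n Δ = (κ : WithBot ℕ) ∧
    ∀ A, Effective y A → Integral y A → numericalDim y n Δ A = (κ : EReal)

/-- the bound `C = (H + 1) (2 s) ^ 2 (2 s + 1) (2 s - 1) (2 s - 2) / 2` -/
def bound (s H : ℕ) : ℕ :=
  (H + 1) * (2 * s * (2 * s)) * ((2 * s + 1) * ((2 * s - 1) * (2 * s - 2) / 2))

/-- Let `V` be a subvariety, of dimension `w` and with generic point `z`, of the open part `x_j ≠ 0`,
`j` in `U`, of a projective variety in `P^n` given by forms which are nested sums of high powers of
monomials, with at most `s` terms in each sum, at most `H + 1` levels, and exponents at least `M ≥ 1`.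
Suppose that no affine line `t ↦ (t ^ b_j z_j)` is contained in this quasi-projective variety. Let
`(X, Δ)` be any projective log canonical pair, `X` birational to `V`, such that the prime divisors of
`X` over the hyperplanes `x_j = 0`, `j` in `U`, have coefficients (at least) `1`. Then there are `h`,
`p`, `h + p = w`, and `p` independent one-parameter groups of diagonal matrices for which the orbits of
`z` satisfy the equations, such that the following holds: if `(h C + 1) (1 - Δ P) ≤ M`,
`C = bound s H`, for all other prime divisors `P` of `X` (always true if `M > w C`), then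
`κ (K_X + Δ) = ν (K_X + Δ)` is a natural number, at least `h`, and at least the logarithmic Kodaira
dimension of `V`. There is no other condition on `Δ`. -/
theorem result {n : ℕ} {ι : Type} {U : Set (Fin (n + 1))} {F : ι → MvPolynomial (Fin (n + 1)) ℂ}
    {s M H : ℕ} (hF : ∀ e, IsForm (F e) ∧ NestedIn IsMono s M H (F e)) (hM : 1 ≤ M)
    {K : Type} [Field K] [Algebra ℂ K] {w : ℕ} {z : Fin (n + 1) → K} (hz : SubVarU U F K w z)
    (hline : ¬ ∃ b, AffOrbit U F z b) {N : ℕ} {y : Fin (N + 1) → K} {Δ : Place ℂ K → ℚ}
    (hy : NormalModel y) (hΔ : Effective y Δ) (hLC : LogCanonical y w Δ)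
    (hone : ∀ P, IsPrimeDivisor y P → OffU U z P → 1 ≤ Δ P) :
    ∃ (h p : ℕ) (b : Fin p → Fin (n + 1) → ℤ), h + p = w ∧ (∀ l, InOrbit F z (b l)) ∧
      (∀ c : Fin p → ℤ, (∀ j j', z j ≠ 0 → z j' ≠ 0 →
        ∑ l, c l * b l j = ∑ l, c l * b l j') → c = 0) ∧
      ((∀ P, IsPrimeDivisor y P → ¬ OffU U z P →
        ((h * bound s H + 1 : ℕ) : ℚ) * (1 - Δ P) ≤ M) →
      ∃ κ : ℕ, h ≤ κ ∧ (∀ q, KodGe ℂ K w (OffU U z) q → q ≤ κ) ∧ DimEq y w Δ κ) :=
  nested_weak hF hM hz hline hy hΔ hLC hone

end Pool.Agent.Results.MP_66b48b_ag.NestedPairs
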