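import Pool.Agent.J6H88.LcSys.Sparse

/-!
MP_66b48b_ag, Q1: nonvanishing and `κ = ν` for **all** projective log canonical pairs `(X, Δ)` over
subvarieties `V` of quasi-projective varieties given by few monomials with high exponents, if no affine
line `t ↦ (t ^ b_j x_j)` passes through the generic point of `V`.

The language is the one of `Pool/Agent/Y172/Defs.lean`: `NormalModel y`: `y` is the generic point, in
homogeneous coordinates, of a normal projective variety `X` with function field `K`; the prime
divisors of `X` are places `P` of `K` (`IsPrimeDivisor`), `P.ord` is the order along `P`;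
`Effective y Δ`, `LogCanonical y w Δ`: `Δ ≥ 0` is a `ℚ`-divisor, and the pair `(X, Δ)` of dimension `w`
is log canonical. `kodairaDim y w Δ` and `numericalDim y w Δ A` are the Kodaira dimension and the
numerical dimension, with respect to `A`, of `K_X + Δ`. If `κ (K_X + Δ)` is a natural number, then
`K_X + Δ` is `ℚ`-linearly equivalent to an effective divisor.

`IsPowSparse U s M F`: the form `F` has at most `s` monomials, and the exponents in it of the variables
`x_j`, `j` not in `U`, are divisible by some `M' ≥ M`. `SubVarU U F K w z`: `z` is the generic point of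
a subvariety `V` of dimension `w`, with function field `K`, of `{F = 0, x_j ≠ 0 for j in U}`.
`OffU U z P`: the centre of `P` lies on one of the hyperplanes `x_j = 0`, `j` in `U`.
`AffOrbit U F z b`, `InOrbit F z b` (`Pool/Agent/J6H88/LcSys/Sparse.lean`): the affine line
`t ↦ (t ^ b_j z_j)` through the generic point of `V` is contained in `{F = 0, x_j ≠ 0 for j in U}`; the
orbit of `z` under the one-parameter group `diag (t ^ b_j)` is contained in `{F = 0}`.
`KodGe ℂ K w (OffU U z) q`: the logarithmic Kodaira dimension of `V` is at least `q`.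
-/

set_option autoImplicit false

namespace Pool.Agent.Results.MP_66b48b_ag.SparseSystemPairs

open FF Pool.Agent.W602.GT Pool.Agent.TH710.ND Pool.Agent.J6H88.LcSys
open Pool.Agent.Y172 (NormalModel IsPrimeDivisor Effective Integral LogCanonical kodairaDim
  numericalDim)

/-- `κ (K_X + Δ) = ν (K_X + Δ) = κ` -/
def DimEq {K : Type} [Field K] [Algebra ℂ K] {N : ℕ} (y : Fin (N + 1) → K) (n : ℕ)
    (Δ : Place ℂ K → ℚ) (κ : ℕ) : Prop :=
  kodairaDim y n Δ = (κ : WithBot ℕ) ∧
    ∀ A, Effective y A → Integral y A → numericalDim y n Δ A = (κ : EReal)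

/-- Let `V` be a subvariety, of dimension `w` and with generic point `z`, of the open part `x_j ≠ 0`,
`j` in `U`, of a projective variety in `P^n` given by forms with at most `s` monomials, the exponents of
the `x_j`, `j` not in `U`, being divisible by some `M' ≥ M`. Suppose that no affine line
`t ↦ (t ^ b_j z_j)` is contained in this quasi-projective variety. Let `(X, Δ)` be any projective
log canonical pair, `X` birational to `V`, such that the prime divisors of `X` over the hyperplanes
`x_j = 0`, `j` in `U`, have coefficients (at least) `1`. Then there are `h`, `p`, `h + p = w`, and `p`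
independent one-parameter groups of diagonal matrices for which the orbits of `z` satisfy the
equations, such that the following holds: if `(h (s + 1) (s - 1) (s - 2) / 2 + 1) (1 - Δ P) ≤ M` for the
prime divisors `P` of `X` over coordinate hyperplanes, but not over those of `U` (this is always true
if `M > w (s + 1) (s - 1) (s - 2) / 2`), then `κ (K_X + Δ) = ν (K_X + Δ)` is a natural number, at least
`h`, and at least the logarithmic Kodaira dimension of `V`. There is no other condition on `Δ`. -/
theorem result {n : ℕ} {ι : Type} {U : Set (Fin (n + 1))} {F : ι → MvPolynomial (Fin (n + 1)) ℂ}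
    {s M : ℕ} (hF : ∀ e, IsPowSparse U s M (F e)) {K : Type} [Field K] [Algebra ℂ K] {w : ℕ}
    {z : Fin (n + 1) → K} (hz : SubVarU U F K w z) (hline : ¬ ∃ b, AffOrbit U F z b) {N : ℕ}
    {y : Fin (N + 1) → K} {Δ : Place ℂ K → ℚ} (hy : NormalModel y) (hΔ : Effective y Δ)
    (hLC : LogCanonical y w Δ) (hone : ∀ P, IsPrimeDivisor y P → OffU U z P → 1 ≤ Δ P) :
    ∃ (h p : ℕ) (b : Fin p → Fin (n + 1) → ℤ), h + p = w ∧ (∀ l, InOrbit F z (b l)) ∧
      (∀ c : Fin p → ℤ, (∀ j j', z j ≠ 0 → z j' ≠ 0 →
        ∑ l, c l * b l j = ∑ l, c l * b l j') → c = 0) ∧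
      ((∀ P, IsPrimeDivisor y P → ¬ OffU U z P →
        (∃ i j, z i ≠ 0 ∧ z j ≠ 0 ∧ P.ord (z i) ≠ P.ord (z j)) →
        ((h * ((s + 1) * ((s - 1) * (s - 2) / 2)) + 1 : ℕ) : ℚ) * (1 - Δ P) ≤ M) →
      ∃ κ : ℕ, h ≤ κ ∧ (∀ q, KodGe ℂ K w (OffU U z) q → q ≤ κ) ∧ DimEq y w Δ κ) :=
  sparse_weak hF hz hline hy hΔ hLC hone

end Pool.Agent.Results.MP_66b48b_ag.SparseSystemPairs
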